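import Mathlib

open Set MeasureTheory Metric Filter Topology Module
open scoped Pointwise RealInnerProductSpace

namespace Pool.Agent.Results.MP_4e5529_gt.Holds

abbrev E (n : ℕ) := EuclideanSpace ℝ (Fin n)

/-- `vol_{n-1}(K ∩ u^⊥)`: the Euclidean-normalised `(n-1)`-dimensional Hausdorff measure. -/
noncomputable def sec {n : ℕ} (K : Set (E n)) (u : E n) : ℝ :=
  (μHE[n - 1] (K ∩ {y | ⟪u, y⟫ = 0})).toReal

/-- The intersection body. -/
def IB {n : ℕ} (K : Set (E n)) : Set (E n) := {x | x = 0 ∨ ‖x‖ ≤ sec K (‖x‖⁻¹ • x)}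

/-- The Banach–Mazur distance. -/
noncomputable def bm {n : ℕ} (L M : Set (E n)) : ℝ :=
  sInf {l | 1 ≤ l ∧ ∃ T : E n ≃ₗ[ℝ] E n, M ⊆ T '' L ∧ T '' L ⊆ l • M}

lemma thin {H : Type*} [NormedAddCommGroup H] [InnerProductSpace ℝ H] [FiniteDimensional ℝ H]
    [MeasurableSpace H] [BorelSpace H] (φ : H →L[ℝ] ℝ) (hφ : ∃ y, φ y ≠ 0) (δ : ℝ) (hδ : 0 < δ) :
    ∀ᶠ r in 𝓝[<] (1 : ℝ), volume.real {x : H | ‖x‖ ≤ 1 ∧ r ^ 2 < ‖x‖ ^ 2 - φ x ^ 2} ≤
      (1 - r ^ finrank ℝ H) * δ := by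
  obtain ⟨A, hA⟩ : ∃ A : ℝ → Set H, ∀ t, A t = {x | ‖x‖ ≤ 1 ∧ φ x ^ 2 ≤ t * ‖x‖ ^ 2} :=
    ⟨_, fun _ => rfl⟩
  have cA : ∀ t, IsClosed (A t) := fun t => by
    rw [hA]
    exact (isClosed_le continuous_norm continuous_const).inter
      (isClosed_le (f := fun x => φ x ^ 2) (g := fun x => t * ‖x‖ ^ 2) (by fun_prop) (by fun_prop))
  have fA : ∀ t, volume (A t) ≠ ⊤ := fun t => measure_ne_top_of_subset
    (fun x hx => by rw [hA] at hx; simpa using hx.1) (measure_closedBall_lt_top (x := 0) (r := 1)).ne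
  have T := tendsto_measure_biInter_gt (μ := volume) (s := A) (a := 0)
    (fun r _ => (cA r).measurableSet.nullMeasurableSet) (fun i j _ h x hx => by
      rw [hA] at hx ⊢; exact ⟨hx.1, hx.2.trans (by gcongr)⟩) ⟨1, one_pos, fA 1⟩
  have z : volume (⋂ r > (0 : ℝ), A r) = 0 := by
    refine measure_mono_null (fun x hx => ?_) (Measure.addHaar_submodule volume φ.ker fun h => ?_)
    · simp only [mem_iInter, hA, mem_setOf_eq] at hx
      have : φ x ^ 2 ≤ 0 := le_of_forall_pos_le_add fun t ht => by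
        have := hx t ht
        have : ‖x‖ ^ 2 ≤ 1 := pow_le_one₀ (norm_nonneg _) this.1
        nlinarith
      simpa using this
    · obtain ⟨y, hy⟩ := hφ
      exact hy (h ▸ Submodule.mem_top : y ∈ φ.ker)
  rw [z] at T
  have l : ∀ᶠ r in 𝓝[<] (1 : ℝ), r ∈ Ioo (0 : ℝ) 1 := Ioo_mem_nhdsLT one_pos
  have T2 : Tendsto (fun r : ℝ => 1 - r ^ 2) (𝓝[<] 1) (𝓝[>] 0) :=
    tendsto_nhdsWithin_iff.2 ⟨((by fun_prop : Continuous fun r : ℝ => 1 - r ^ 2).tendsto' 1 0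
      (by simp)).mono_left nhdsWithin_le_nhds, l.mono fun r h => by
        have := h.1; have := h.2; simp only [mem_Ioi]; nlinarith⟩
  filter_upwards [l, (T.comp T2).eventually (gt_mem_nhds (ENNReal.ofReal_pos.2 hδ))] with r h k
  have r1 : r ^ finrank ℝ H ≤ 1 := pow_le_one₀ h.1.le h.2.le
  have sb : r • A (1 - r ^ 2) ⊆ A (1 - r ^ 2) := by
    rintro _ ⟨x, hx, rfl⟩
    rw [hA] at hx ⊢
    simp only [mem_setOf_eq, norm_smul, map_smul, smul_eq_mul, Real.norm_of_nonneg h.1.le] at hx ⊢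
    exact ⟨mul_le_one₀ h.2.le (norm_nonneg _) hx.1, by nlinarith [sq_nonneg r, hx.2]⟩
  refine (measureReal_mono (s₂ := A (1 - r ^ 2) \ r • A (1 - r ^ 2)) (fun x hx => ⟨?_, ?_⟩)
    (measure_ne_top_of_subset diff_subset (fA _))).trans ?_
  · rw [hA]
    have : ‖x‖ ^ 2 ≤ 1 := pow_le_one₀ (norm_nonneg _) hx.1
    exact ⟨hx.1, by nlinarith [hx.2, sq_nonneg r]⟩
  · rintro ⟨y, hy, rfl⟩
    rw [hA] at hy
    have a := hx.2
    have : ‖y‖ ^ 2 ≤ 1 := pow_le_one₀ (norm_nonneg _) hy.1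
    simp only [norm_smul, Real.norm_of_nonneg h.1.le] at a
    nlinarith [sq_nonneg r, sq_nonneg (φ (r • y))]
  · rw [measureReal_sdiff sb ((cA _).measurableSet.const_smul₀ r) (fA _), measureReal_def _ (r • _),
      Measure.addHaar_smul_of_nonneg _ h.1.le, ENNReal.toReal_mul,
      ENNReal.toReal_ofReal (pow_nonneg h.1.le _), ← measureReal_def, ← one_sub_mul]
    exact mul_le_mul_of_nonneg_left (ENNReal.toReal_le_of_le_ofReal hδ.le k.le) (by linarith)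

noncomputable def kap (m : ℕ) : ℝ := √Real.pi ^ m / Real.Gamma (m / 2 + 1)

lemma kap_pos (m : ℕ) : 0 < kap m :=
  div_pos (by have := Real.pi_pos; positivity) (Real.Gamma_pos_of_pos (by positivity))

variable {m : ℕ}

lemma rk {u : E (m + 1)} (hu : u ≠ 0) : finrank ℝ (ℝ ∙ u)ᗮ = m :=
  haveI : Fact (finrank ℝ (E (m + 1)) = m + 1) := ⟨by simp⟩
  Submodule.finrank_orthogonal_span_singleton hu

lemma sec_eq (K : Set (E (m + 1))) {u : E (m + 1)} (hu : u ≠ 0) :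
    sec K u = volume.real {y : (ℝ ∙ u)ᗮ | (y : E (m + 1)) ∈ K} := by
  rw [sec, measureReal_def, ← InnerProductSpace.euclideanHausdorffMeasure_eq_volume, rk hu,
    ← (ℝ ∙ u)ᗮ.subtypeₗᵢ.isometry.euclideanHausdorffMeasure_image]
  congr 2
  ext y
  simp [Submodule.mem_orthogonal_singleton_iff_inner_right, and_comm]

lemma ball (hm : 2 ≤ m) {u : E (m + 1)} (hu : u ≠ 0) {s : ℝ} (hs : 0 ≤ s) :
    volume.real {y : (ℝ ∙ u)ᗮ | ‖y‖ ≤ s} = s ^ m * kap m ∧ volume {y : (ℝ ∙ u)ᗮ | ‖y‖ ≤ s} ≠ ⊤ := by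
  have : Nontrivial (ℝ ∙ u)ᗮ := Module.nontrivial_of_finrank_pos (R := ℝ) (by rw [rk hu]; omega)
  rw [show {y : (ℝ ∙ u)ᗮ | ‖y‖ ≤ s} = closedBall 0 s by ext; simp]
  refine ⟨?_, measure_closedBall_lt_top.ne⟩
  rw [measureReal_def, InnerProductSpace.volume_closedBall, rk hu, ENNReal.toReal_mul,
    ENNReal.toReal_pow, ENNReal.toReal_ofReal hs, ← kap, ENNReal.toReal_ofReal (kap_pos m).le]

noncomputable def e (i : Fin (m + 1)) : E (m + 1) := EuclideanSpace.single i 1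

noncomputable def u (j : Fin (m + 1)) : E (m + 1) := e j - (2 / (m + 1) : ℝ) • ∑ i, e i

def K (m : ℕ) (r : ℝ) : Set (E (m + 1)) := {x | ‖x‖ ≤ 1 ∧ ∀ i, ‖x - x i • e i‖ ≤ r}

lemma ne (i : Fin (m + 1)) : ‖e i‖ = 1 := by simp [e]

lemma ie (i : Fin (m + 1)) (x : E (m + 1)) : ⟪e i, x⟫ = x i := by simp [e, EuclideanSpace.inner_single_left]

lemma pe (i : Fin (m + 1)) (x : E (m + 1)) : ‖x - x i • e i‖ ^ 2 = ‖x‖ ^ 2 - x i ^ 2 := by
  rw [norm_sub_sq_real, norm_smul, ne, inner_smul_right, real_inner_comm, ie]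
  simp; ring

lemma tr {F : Type*} [NormedAddCommGroup F] [InnerProductSpace ℝ F] (T : E (m + 1) →ₗ[ℝ] F) :
    ∑ j, ‖T (u j)‖ ^ 2 = ∑ j, ‖T (e j)‖ ^ 2 := by
  simp only [u, map_sub, map_smul, norm_sub_sq_real, inner_smul_right, Finset.sum_add_distrib,
    Finset.sum_sub_distrib, ← Finset.mul_sum, ← sum_inner, ← map_sum, real_inner_self_eq_norm_sq,
    norm_smul, mul_pow, Real.norm_eq_abs, sq_abs, Finset.sum_const, Finset.card_univ,
    Fintype.card_fin, nsmul_eq_mul]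
  push_cast
  field_simp
  ring

lemma ue (i j : Fin (m + 1)) : u j i = (if i = j then 1 else 0) - 2 / (m + 1 : ℝ) := by
  simp [u, e, Pi.single_apply]

lemma nu (j : Fin (m + 1)) : ‖u j‖ = 1 := by
  have a : ‖∑ i : Fin (m + 1), e i‖ ^ 2 = m + 1 := by
    simp [EuclideanSpace.real_norm_sq_eq, e, Pi.single_apply]
  have b : (∑ i : Fin (m + 1), e i) j = 1 := by simp [e, Pi.single_apply]
  rw [← sq_eq_sq₀ (norm_nonneg _) zero_le_one, u, norm_sub_sq_real, ne, inner_smul_right, ie, b,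
    norm_smul, mul_pow, a, Real.norm_eq_abs, sq_abs]
  field_simp
  ring

lemma big (hm : 2 ≤ m) (j : Fin (m + 1)) (δ : ℝ) (hδ : 0 < δ) : ∀ᶠ r in 𝓝[<] (1 : ℝ),
    kap m - (m + 1) * ((1 - r ^ m) * δ) ≤ sec (K m r) (u j) := by
  have u0 : u j ≠ 0 := fun h => by simpa [h] using nu j
  have := eventually_all.2 fun i => thin ((innerSL ℝ (e i)).comp (ℝ ∙ u j)ᗮ.subtypeL)
    ⟨⟨e i - u j i • u j, by
      rw [Submodule.mem_orthogonal_singleton_iff_inner_right, inner_sub_right, inner_smul_right,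
        real_inner_self_eq_norm_sq, nu, real_inner_comm, ie]; ring⟩, by
      have a : (2 : ℝ) ≤ m := by exact_mod_cast hm
      have b : 0 < 2 / (m + 1 : ℝ) := by positivity
      have c : 2 / (m + 1 : ℝ) < 1 := by rw [div_lt_one (by positivity)]; linarith
      have d : e i i = 1 := by simp [e]
      simp only [ContinuousLinearMap.comp_apply, Submodule.subtypeL_apply, innerSL_apply_apply, ie,
        PiLp.sub_apply, PiLp.smul_apply, d, ue, smul_eq_mul]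
      split_ifs <;> nlinarith⟩ δ hδ
  filter_upwards [this, Ioo_mem_nhdsLT (one_pos (α := ℝ))] with r h l
  simp only [rk u0, ContinuousLinearMap.comp_apply, Submodule.subtypeL_apply, innerSL_apply_apply,
    ie] at h
  obtain ⟨b1, b2⟩ := ball hm u0 zero_le_one
  have s1 := measureReal_mono (μ := volume) (s₁ := {y : (ℝ ∙ u j)ᗮ | ‖y‖ ≤ 1})
    (s₂ := {y : (ℝ ∙ u j)ᗮ | (y : E (m + 1)) ∈ K m r} ∪
      ⋃ i, {x : (ℝ ∙ u j)ᗮ | ‖x‖ ≤ 1 ∧ r ^ 2 < ‖x‖ ^ 2 - (x : E (m + 1)) i ^ 2})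
    (fun y hy => by
      by_cases k : ∀ i, ‖(y : E (m + 1)) - (y : E (m + 1)) i • e i‖ ≤ r
      · exact .inl ⟨hy, k⟩
      · push Not at k
        obtain ⟨i, k⟩ := k
        refine .inr (mem_iUnion.2 ⟨i, hy, ?_⟩)
        rw [Submodule.coe_norm, ← pe]
        exact pow_lt_pow_left₀ k l.1.le two_ne_zero)
    (measure_ne_top_of_subset (union_subset (fun y hy => hy.1) (iUnion_subset fun i y hy => hy.1)) b2)
  have s2 := (s1.trans (measureReal_union_le _ _)).trans (add_le_add_right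
    ((measureReal_iUnion_fintype_le _).trans (Finset.sum_le_sum fun i _ => h i)) _)
  rw [b1] at s2
  simp only [Finset.sum_const, Finset.card_univ, Fintype.card_fin, nsmul_eq_mul, one_pow] at s2
  push_cast at s2
  rw [sec_eq _ u0]
  linarith

lemma sub {r : ℝ} (h : r ∈ Ioo (0 : ℝ) 1) {x : E (m + 1)} (hx : ‖x‖ ≤ r) : x ∈ K m r :=
  ⟨hx.trans h.2.le, fun i => (pow_le_pow_iff_left₀ (norm_nonneg _) h.1.le two_ne_zero).1 (by
    rw [pe]; nlinarith [sq_nonneg (x i), norm_nonneg x])⟩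

lemma le_sec (hm : 2 ≤ m) {r : ℝ} (h : r ∈ Ioo (0 : ℝ) 1) {v : E (m + 1)} (hv : v ≠ 0) :
    r ^ m * kap m ≤ sec (K m r) v := by
  rw [← (ball hm hv h.1.le).1, sec_eq _ hv]
  exact measureReal_mono (fun y hy => sub h hy)
    (measure_ne_top_of_subset (fun y hy => hy.1) (ball hm hv zero_le_one).2)

lemma sec_le (hm : 2 ≤ m) {L : Set (E (m + 1))} {s : ℝ} (hs : 0 ≤ s) {v : E (m + 1)} (hv : v ≠ 0)
    (h : ∀ y ∈ L, ⟪v, y⟫ = 0 → ‖y‖ ≤ s) : sec L v ≤ s ^ m * kap m := by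
  rw [← (ball hm hv hs).1, sec_eq _ hv]
  exact measureReal_mono (fun y hy => h _ hy
    (Submodule.mem_orthogonal_singleton_iff_inner_right.1 y.2)) (ball hm hv hs).2

lemma mem {n : ℕ} (L : Set (E n)) (a b : ℝ) (ha : 0 < a) (hb : a ≤ b) (h1 : ∀ x, ‖x‖ ≤ a → x ∈ L)
    (h2 : ∀ x ∈ L, ‖x‖ ≤ b) : 1 ≤ b / a ∧ ∃ T : E n ≃ₗ[ℝ] E n, closedBall 0 1 ⊆ T '' L ∧
      T '' L ⊆ (b / a) • closedBall (0 : E n) 1 := by
  have k : 1 ≤ b / a := (one_le_div ha).2 hb
  refine ⟨k, LinearEquiv.smulOfNeZero ℝ _ a⁻¹ (inv_pos.2 ha).ne', fun x hx => ⟨a • x, h1 _ ?_, ?_⟩, ?_⟩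
  · rw [norm_smul, Real.norm_of_nonneg ha.le]
    exact mul_le_of_le_one_right ha.le (by simpa using hx)
  · simp [smul_smul, ha.ne']
  · rintro _ ⟨x, hx, rfl⟩
    rw [smul_unitClosedBall_of_nonneg (by linarith)]
    simpa [norm_smul, abs_of_pos ha, div_eq_inv_mul, ha] using h2 x hx

theorem result (n : ℕ) (hn : 3 ≤ n) : ∃ K : Set (E n), IsCompact K ∧ Convex ℝ K ∧
    (interior K).Nonempty ∧ K = -K ∧ bm K (closedBall 0 1) < bm (IB K) (closedBall 0 1) := by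
  obtain ⟨m, rfl⟩ : ∃ m, n = m + 1 := ⟨n - 1, by omega⟩
  have hm : 2 ≤ m := by omega
  have m2 : (2 : ℝ) ≤ m := by exact_mod_cast hm
  have k0 := kap_pos m
  obtain ⟨r, hr, h⟩ := ((eventually_all.2 fun j => big hm j (kap m / (2 * m * (m + 1)))
    (by positivity)).and (Ioo_mem_nhdsLT (one_pos (α := ℝ)))).exists
  have r0 := h.1
  have r1 := h.2
  have p1 : r ^ m ≤ r ^ 2 := pow_le_pow_of_le_one r0.le r1.le hm
  have lo : ∀ j, kap m * (1 + r) / 2 ≤ sec (K m r) (u j) := fun j => by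
    refine le_trans ?_ (hr j)
    have a := one_add_mul_sub_le_pow (a := r) (by linarith) m
    have b : (m + 1) * ((1 - r ^ m) * (kap m / (2 * m * (m + 1)))) = (1 - r ^ m) / m * (kap m / 2) := by
      field_simp
    have c : (1 - r ^ m) / m ≤ 1 - r := by rw [div_le_iff₀ (by positivity)]; linarith
    rw [b]; nlinarith
  have nz : ∀ x : E (m + 1), x ≠ 0 → ‖x‖⁻¹ • x ≠ 0 := fun x hx => by simp [hx]
  refine ⟨K m r, Metric.isCompact_of_isClosed_isBounded ?_ ((isBounded_closedBall (x := 0)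
    (r := 1)).subset fun x hx => by simpa using hx.1), ?_, ⟨0, mem_interior_iff_mem_nhds.2
    (mem_of_superset (closedBall_mem_nhds 0 r0) fun x hx => sub h (by simpa using hx))⟩, ?_, ?_⟩
  · simp only [K, setOf_and, setOf_forall]
    exact (isClosed_le continuous_norm continuous_const).inter
      (isClosed_iInter fun i => isClosed_le (by fun_prop) continuous_const)
  · intro x hx y hy a b ha hb hab
    have cv : ∀ (s : ℝ) (x y : E (m + 1)), ‖x‖ ≤ s → ‖y‖ ≤ s → ‖a • x + b • y‖ ≤ s := fun s x y p q => by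
      simpa using convex_closedBall (0 : E (m + 1)) s (by simpa using p) (by simpa using q) ha hb hab
    refine ⟨cv _ _ _ hx.1 hy.1, fun i => ?_⟩
    convert cv _ _ _ (hx.2 i) (hy.2 i) using 2
    simp only [PiLp.add_apply, PiLp.smul_apply, smul_eq_mul]
    module
  · ext x
    simp only [K, Set.mem_neg, mem_setOf_eq, norm_neg, PiLp.neg_apply, neg_smul, ← neg_sub', norm_neg]
  have a0 : 0 < r ^ m * kap m := by positivity
  have up : bm (K m r) (closedBall 0 1) ≤ 1 / r :=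
    csInf_le ⟨1, fun l h => h.1⟩ (mem _ _ _ r0 r1.le (fun x => sub h) fun x hx => hx.1)
  refine up.trans_lt (lt_of_lt_of_le (b := kap m * (1 + r) / 2 / (r ^ m * kap m)) ?_
    (le_csInf ⟨_, mem (IB (K m r)) (r ^ m * kap m) (kap m) a0
      (mul_le_of_le_one_left k0.le (pow_le_one₀ r0.le r1.le)) (fun x hx => ?_)
      fun x hx => ?_⟩ ?_))
  · rw [div_lt_div_iff₀ r0 a0]; nlinarith [mul_pos k0 (mul_pos r0 (sub_pos.2 r1))]
  · by_cases x0 : x = 0
    · exact .inl x0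
    · exact .inr (hx.trans (le_sec hm h (nz x x0)))
  · by_cases x0 : x = 0
    · simpa [x0] using k0.le
    · simpa using (hx.resolve_left x0).trans (sec_le hm zero_le_one (nz x x0) fun y hy _ => hy.1)
  rintro l ⟨l1, T, t1, t2⟩
  set ρ := kap m * (1 + r) / 2
  have ρ0 : 0 < ρ := by positivity
  have b1 : ∀ j, ρ ^ 2 * ‖T (u j)‖ ^ 2 ≤ l ^ 2 := fun j => by
    have n1 : ‖ρ • u j‖ = ρ := by rw [norm_smul, nu, mul_one, Real.norm_of_nonneg ρ0.le]
    have := t2 ⟨ρ • u j, .inr (by rw [n1, smul_smul, inv_mul_cancel₀ ρ0.ne', one_smul]; exact lo j), rfl⟩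
    rw [smul_unitClosedBall_of_nonneg (by linarith), mem_closedBall_zero_iff, map_smul, norm_smul,
      Real.norm_of_nonneg ρ0.le] at this
    rw [← mul_pow]; gcongr
  have b2 : ∀ i, 1 ≤ (r ^ m * kap m) ^ 2 * ‖T (e i)‖ ^ 2 := fun i => by
    have e0 : e i ≠ 0 := fun h => by simpa [h] using ne i
    have t0 : 0 < ‖T (e i)‖ := by simpa using e0
    obtain ⟨x, hx, ex⟩ := t1 (show T (‖T (e i)‖⁻¹ • e i) ∈ closedBall 0 1 by
      simp [norm_smul, t0.ne'])
    obtain rfl := T.injective ex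
    have n1 : ‖‖T (e i)‖⁻¹ • e i‖ = ‖T (e i)‖⁻¹ := by rw [norm_smul, ne]; simp
    have := hx.resolve_left (by simp [e0])
    rw [n1, smul_smul, inv_inv, mul_inv_cancel₀ t0.ne', one_smul] at this
    have := this.trans (sec_le hm r0.le e0 fun y hy k => by
      simpa [← ie, k] using hy.2 i)
    rw [inv_le_iff_one_le_mul₀ t0] at this
    rw [← mul_pow]; exact one_le_pow₀ this
  have s1 := Finset.sum_le_sum fun j (_ : j ∈ Finset.univ) => b1 j
  have s2 := Finset.sum_le_sum fun j (_ : j ∈ Finset.univ) => b2 j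
  have s3 := tr (T : E (m + 1) →ₗ[ℝ] E (m + 1))
  simp only [← Finset.mul_sum, Finset.sum_const, Finset.card_univ, Fintype.card_fin, nsmul_eq_mul,
    LinearEquiv.coe_coe] at s1 s2 s3
  rw [s3] at s1
  rw [div_le_iff₀ a0, ← pow_le_pow_iff_left₀ ρ0.le (by positivity) two_ne_zero, mul_pow]
  have n0 : (0 : ℝ) < (m + 1 : ℕ) := by positivity
  refine le_of_mul_le_mul_left ?_ n0
  nlinarith [mul_le_mul_of_nonneg_left s1 (sq_nonneg (r ^ m * kap m)),
    mul_le_mul_of_nonneg_left s2 (sq_nonneg ρ)]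

end Pool.Agent.Results.MP_4e5529_gt.Holds
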